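import Pool.Agent.Helper585RC.Final

/-!
# A class of separable permutations containing `Av(231)` with a rational generating function
-/

set_option autoImplicit false

namespace Pool.Agent.Results.MP_163b0f_co.RationalClass

open Pool.Agent.Helper585RC

/-- `π` contains `σ`: the entries of `π` at some positions `f 0 < f 1 < …` are in the same relative order as the entries
of `σ`. -/
def Contains {n k : ℕ} (π : Equiv.Perm (Fin n)) (σ : Equiv.Perm (Fin k)) : Prop :=
  ∃ f : Fin k ↪o Fin n, ∀ i j, σ i < σ j ↔ π (f i) < π (f j)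

/-- A permutation class: for every length a set of permutations, closed downward under containment. -/
structure PermClass where
  carrier : (n : ℕ) → Set (Equiv.Perm (Fin n))
  down : ∀ (n k : ℕ) (π : Equiv.Perm (Fin n)) (σ : Equiv.Perm (Fin k)), π ∈ carrier n → Contains π σ → σ ∈ carrier k

/-- the permutation 231 -/
def p231 : Equiv.Perm (Fin 3) := ⟨![1, 2, 0], ![2, 0, 1], by decide, by decide⟩

/-- the permutation 2413 -/
def p2413 : Equiv.Perm (Fin 4) := ⟨![1, 3, 0, 2], ![2, 0, 3, 1], by decide, by decide⟩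

/-- the permutation 3142 -/
def p3142 : Equiv.Perm (Fin 4) := ⟨![2, 0, 3, 1], ![1, 3, 0, 2], by decide, by decide⟩

/-- the generating function of a class -/
noncomputable def genFun (𝒞 : PermClass) : PowerSeries ℤ := PowerSeries.mk fun n => ((𝒞.carrier n).ncard : ℤ)

/-- the class -/
def theClass : PermClass where
  carrier _ := {π | C (toL π)}
  down n k π σ hπ h := by
    obtain ⟨f, hf⟩ := h
    have h1 : C (List.ofFn fun i => (π (f i) : ℕ)) := C.sub hπ (sub_of_embedding π f)
    have hinj : Function.Injective fun i : Fin k => (π (f i) : ℕ) := by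
      intro i j hij
      exact f.injective (π.injective (Fin.ext hij))
    let φ : ℕ → ℕ := Function.extend (fun i : Fin k => (π (f i) : ℕ)) (fun i => (σ i : ℕ)) (fun _ => 0)
    have hφ : ∀ i : Fin k, φ (π (f i) : ℕ) = σ i := fun i => hinj.extend_apply _ _ i
    have h2 : (List.ofFn fun i => (π (f i) : ℕ)).map φ = toL σ := by
      rw [List.map_ofFn]
      unfold toL
      congr 1
      funext i
      exact hφ i
    change C (toL σ)
    rw [← h2]
    refine mapInv_C _ _ ?_ h1
    intro a ha b hb hab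
    obtain ⟨i, rfl⟩ := (List.mem_ofFn).1 ha
    obtain ⟨j, rfl⟩ := (List.mem_ofFn).1 hb
    rw [hφ, hφ]
    exact (hf i j).2 hab

theorem card_eq (n : ℕ) : (theClass.carrier n).ncard = N C n := by
  unfold N
  rw [← Set.ncard_coe_finset]
  refine Set.ncard_congr (fun π _ => toL π) ?_ ?_ ?_
  · intro π hπ
    rw [Finset.mem_coe, mem_S]
    exact ⟨toL_perm π, hπ⟩
  · intro π σ _ _ h
    exact toL_injective h
  · intro l hl
    rw [Finset.mem_coe, mem_S] at hl
    obtain ⟨π, rfl⟩ := exists_toL hl.1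
    exact ⟨π, hl.2, rfl⟩

theorem contains_of {n k : ℕ} {π : Equiv.Perm (Fin n)} {σ : Equiv.Perm (Fin k)} (f : Fin k ↪o Fin n)
    (h : ∀ i j, σ i < σ j → π (f i) < π (f j)) : Contains π σ := by
  refine ⟨f, fun i j => ⟨h i j, fun h1 => ?_⟩⟩
  rcases lt_trichotomy (σ i) (σ j) with h2 | h2 | h2
  · exact h2
  · have h3 : i = j := σ.injective h2
    subst h3
    exact absurd h1 (lt_irrefl _)
  · exact absurd (h j i h2) (lt_asymm h1)

theorem mem_of_avoids {n : ℕ} (π : Equiv.Perm (Fin n)) (h : ¬ Contains π p231) : π ∈ theClass.carrier n := by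
  refine A.C ⟨toL_nodup π, fun a b c h3 h4 => h ?_⟩
  obtain ⟨f, hf⟩ := embedding_of_sub π h3
  have e0 : a = (π (f 0) : ℕ) := hf 0
  have e1 : b = (π (f 1) : ℕ) := hf 1
  have e2 : c = (π (f 2) : ℕ) := hf 2
  rw [e0, e1, e2] at h4
  obtain ⟨h5, h6⟩ := h4
  have hall : ∀ i j : Fin 3, p231 i < p231 j → (i = 2 ∧ j = 0) ∨ (i = 0 ∧ j = 1) ∨ (i = 2 ∧ j = 1) := by decide
  refine contains_of (σ := p231) f fun i j hij => ?_
  rcases hall i j hij with ⟨rfl, rfl⟩ | ⟨rfl, rfl⟩ | ⟨rfl, rfl⟩
  · exact h5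
  · exact h6
  · exact lt_trans (a := π (f 2)) h5 h6

theorem not_contains_2413 {n : ℕ} (π : Equiv.Perm (Fin n)) (h : π ∈ theClass.carrier n) :
    ¬ Contains π p2413 ∧ ¬ Contains π p3142 := by
  have hs : Sep (toL π) := C.sep h
  have hsub : ∀ f : Fin 4 ↪o Fin n, [(π (f 0) : ℕ), (π (f 1) : ℕ), (π (f 2) : ℕ), (π (f 3) : ℕ)].Sublist (toL π) := by
    intro f
    have := sub_of_embedding π f
    simpa [List.ofFn_succ] using this
  constructor
  · rintro ⟨f, hf⟩
    exact (hs _ _ _ _ (hsub f)).1 ⟨(hf 2 0).1 (by decide), (hf 0 3).1 (by decide), (hf 3 1).1 (by decide)⟩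
  · rintro ⟨f, hf⟩
    exact (hs _ _ _ _ (hsub f)).2 ⟨(hf 1 3).1 (by decide), (hf 3 0).1 (by decide), (hf 0 2).1 (by decide)⟩

/-- There is a permutation class `𝒞` with `Av(231) ⊆ 𝒞 ⊆ Av(2413, 3142)` whose generating function is rational, namely
`(1 - 5x + 5x² - 2x³) / (1 - 6x + 9x² - 5x³ + x⁴)`. -/
theorem result : ∃ 𝒞 : PermClass,
    (∀ (n : ℕ) (π : Equiv.Perm (Fin n)), ¬ Contains π p231 → π ∈ 𝒞.carrier n) ∧
    (∀ (n : ℕ) (π : Equiv.Perm (Fin n)), π ∈ 𝒞.carrier n → ¬ Contains π p2413 ∧ ¬ Contains π p3142) ∧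
    ((1 - 6 * Polynomial.X + 9 * Polynomial.X ^ 2 - 5 * Polynomial.X ^ 3 + Polynomial.X ^ 4 : Polynomial ℤ) :
        PowerSeries ℤ) * genFun 𝒞 =
      ((1 - 5 * Polynomial.X + 5 * Polynomial.X ^ 2 - 2 * Polynomial.X ^ 3 : Polynomial ℤ) : PowerSeries ℤ) := by
  refine ⟨theClass, fun n π h => mem_of_avoids π h, fun n π h => not_contains_2413 π h, ?_⟩
  have h1 : genFun theClass = gf C := by
    unfold genFun gf
    congr 1
    funext n
    rw [card_eq]
  rw [h1, ← Polynomial.coeToPowerSeries.ringHom_apply, ← Polynomial.coeToPowerSeries.ringHom_apply]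
  simp only [map_add, map_sub, map_mul, map_pow, map_one, map_ofNat, Polynomial.coeToPowerSeries.ringHom_apply,
    Polynomial.coe_X]
  exact gf_C

end Pool.Agent.Results.MP_163b0f_co.RationalClass
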